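import Mathlib

-- part Pool.Agent.Lib.MP_3beb55_lc.Graph
section

/-! From a decreasing sequence of relations to a graph. -/

namespace Pool.Agent.Lib.MP_3beb55_lc
open Cardinal

variable {Z : Type}

/-- `s` is a countable union of sets, each of which is independent for some `R k`. -/
def SigmaInd (R : ℕ → Z → Z → Prop) (s : Set Z) : Prop :=
  ∃ (d : Z → ℕ) (k : ℕ → ℕ), ∀ x ∈ s, ∀ y ∈ s, d x = d y → ¬ R (k (d x)) x y

theorem SigmaInd.mono {R : ℕ → Z → Z → Prop} {s t : Set Z} (h : SigmaInd R t) (hst : s ⊆ t) :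
    SigmaInd R s := by
  obtain ⟨d, k, h⟩ := h
  exact ⟨d, k, fun x hx y hy => h x (hst hx) y (hst hy)⟩

theorem SigmaInd.of_parts {R : ℕ → Z → Z → Prop} {s : Set Z} (p : Z → ℕ)
    (h : ∀ m, SigmaInd R {x | x ∈ s ∧ p x = m}) : SigmaInd R s := by
  choose d k h using h
  refine ⟨fun x => Nat.pair (p x) (d (p x) x), fun n => k n.unpair.1 n.unpair.2, ?_⟩
  intro x hx y hy hxy
  simp only [Nat.pair_eq_pair] at hxy
  obtain ⟨h1, h2⟩ := hxy
  simp only [Nat.unpair_pair]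
  refine h (p x) x ⟨hx, rfl⟩ y ⟨hy, h1.symm⟩ ?_
  rw [h2, h1]

/-- Well-founded countably branching trees labelled by `Z`. -/
inductive Vtx (Z : Type) : Type
  | leaf : Vtx Z
  | node : Z → (ℕ → Vtx Z) → Vtx Z

def Arc (R : ℕ → Z → Z → Prop) (v w : Vtx Z) : Prop :=
  ∃ x nb n y nb', v = Vtx.node x nb ∧ w = Vtx.node y nb' ∧ nb n = w ∧ R n y x

def graph (R : ℕ → Z → Z → Prop) : SimpleGraph (Vtx Z) := SimpleGraph.fromRel (Arc R)

noncomputable def Vtx.rank : Vtx Z → Ordinal.{0}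
  | .leaf => 0
  | .node _ nb => ⨆ n, (Vtx.rank (nb n) + 1)

theorem rank_lt (x : Z) (nb : ℕ → Vtx Z) (n : ℕ) : (nb n).rank < (Vtx.node x nb).rank := by
  have : (nb n).rank + 1 ≤ (Vtx.node x nb).rank := by
    rw [Vtx.rank]
    exact Ordinal.le_iSup (fun n => Vtx.rank (nb n) + 1) n
  exact lt_of_lt_of_le (lt_add_one _) this

theorem rank_lt_omega1 (v : Vtx Z) : v.rank < Ordinal.omega 1 := by
  induction v with
  | leaf => exact Ordinal.omega_pos 1
  | node x nb ih =>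
    rw [Vtx.rank]
    apply Ordinal.iSup_lt_omega_one
    intro n
    exact (Cardinal.isSuccLimit_omega 1).succ_lt (ih n)

theorem arc_rank {R : ℕ → Z → Z → Prop} {v w : Vtx Z} (h : Arc R v w) : w.rank < v.rank := by
  obtain ⟨x, nb, n, y, nb', rfl, -, h, -⟩ := h
  rw [← h]
  exact rank_lt x nb n

theorem adj_of_arc {R : ℕ → Z → Z → Prop} {v w : Vtx Z} (h : Arc R v w) : (graph R).Adj v w := by
  rw [graph, SimpleGraph.fromRel_adj]
  refine ⟨?_, Or.inl h⟩
  intro e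
  have := arc_rank h
  rw [e] at this
  exact lt_irrefl _ this

theorem colorable_omega1 (R : ℕ → Z → Z → Prop) :
    Nonempty ((graph R).Coloring (Set.Iio (Ordinal.omega.{0} 1))) := by
  refine ⟨SimpleGraph.Coloring.mk (fun v => ⟨v.rank, rank_lt_omega1 v⟩) ?_⟩
  intro v w h e
  rw [graph, SimpleGraph.fromRel_adj] at h
  have e' : v.rank = w.rank := congrArg Subtype.val e
  rcases h.2 with h | h
  · exact (arc_rank h).ne' e'
  · exact (arc_rank h).ne e'

theorem sigmaInd_of_coloring (R : ℕ → Z → Z → Prop) (c : (graph R).Coloring ℕ) :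
    SigmaInd R Set.univ := by
  classical
  -- the canonical vertex of type `x`
  let P : Z → ℕ → ℕ → Prop := fun x k n => ∃ y nb', R n y x ∧ c (Vtx.node y nb') = k
  have hnb : ∀ x n, ∃ w : Vtx Z, P x n n → ∃ y nb', w = Vtx.node y nb' ∧ R n y x ∧ c w = n := by
    intro x n
    by_cases h : P x n n
    · obtain ⟨y, nb', h1, h2⟩ := h
      exact ⟨Vtx.node y nb', fun _ => ⟨y, nb', rfl, h1, h2⟩⟩
    · exact ⟨Vtx.leaf, fun h' => absurd h' h⟩
  choose nb hnb using hnb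
  let col : Z → ℕ := fun x => c (Vtx.node x (nb x))
  have key : ∀ x, ¬ P x (col x) (col x) := by
    intro x hP
    obtain ⟨y, nb', h1, h2, h3⟩ := hnb x (col x) hP
    have hadj : (graph R).Adj (Vtx.node x (nb x)) (nb x (col x)) :=
      adj_of_arc ⟨x, nb x, col x, y, nb', rfl, h1, rfl, h2⟩
    exact c.valid hadj h3.symm
  refine ⟨col, id, ?_⟩
  intro x _ y _ hxy hR
  apply key y
  refine ⟨x, nb x, ?_, hxy⟩
  simpa [hxy] using hR

def Vtx.aux (K : Z → ℕ) : Vtx Z → ℕ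
  | .leaf => 0
  | .node x nb => (Finset.range (K x)).sup (fun n => Vtx.aux K (nb n)) + 1

def Vtx.cl (d : Z → ℕ) : Vtx Z → ℕ
  | .leaf => 0
  | .node x _ => d x

theorem coloring_of_sigmaInd (R : ℕ → Z → Z → Prop)
    (hR : ∀ k l, k ≤ l → ∀ x y, R l x y → R k x y) (s : Set (Vtx Z))
    (h : SigmaInd R {x | ∃ nb, Vtx.node x nb ∈ s}) :
    Nonempty (((graph R).induce s).Coloring ℕ) := by
  obtain ⟨d, k, h⟩ := h
  have key : ∀ v ∈ s, ∀ w ∈ s, Arc R v w → v.cl d = w.cl d →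
      w.aux (fun x => k (d x)) < v.aux (fun x => k (d x)) := by
    rintro v hv w hw ⟨x, nb, n, y, nb', rfl, rfl, h1, h2⟩ hcl
    have hd : d x = d y := hcl
    have hn : n < k (d x) := by
      by_contra hn
      push Not at hn
      refine h y ⟨nb', hw⟩ x ⟨nb, hv⟩ hd.symm ?_
      exact hR _ _ (by rw [← hd]; exact hn) _ _ h2
    rw [← h1]
    conv_rhs => rw [Vtx.aux]
    apply Nat.lt_succ_of_le
    exact Finset.le_sup (f := fun n => Vtx.aux (fun x => k (d x)) (nb n)) (Finset.mem_range.2 hn)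
  refine ⟨SimpleGraph.Coloring.mk
    (fun v => Nat.pair (v.1.cl d) (v.1.aux (fun x => k (d x)))) ?_⟩
  intro v w hvw e
  simp only [Nat.pair_eq_pair] at e
  have hvw' : (graph R).Adj v.1 w.1 := hvw
  rw [graph, SimpleGraph.fromRel_adj] at hvw'
  rcases hvw'.2 with h' | h'
  · exact (key _ v.2 _ w.2 h' e.1).ne' e.2
  · exact (key _ w.2 _ v.2 h' e.1.symm).ne e.2

def Vtx.lab : Vtx Z → List ℕ → Option Z
  | .leaf, _ => none
  | .node x _, [] => some x
  | .node _ nb, n :: p => Vtx.lab (nb n) p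

theorem lab_injective : Function.Injective (Vtx.lab : Vtx Z → List ℕ → Option Z) := by
  intro v
  induction v with
  | leaf =>
    intro w h
    cases w with
    | leaf => rfl
    | node y nb' =>
      have := congrFun h []
      simp [Vtx.lab] at this
  | node x nb ih =>
    intro w h
    cases w with
    | leaf =>
      have := congrFun h []
      simp [Vtx.lab] at this
    | node y nb' =>
      have h0 := congrFun h []
      simp only [Vtx.lab, Option.some.injEq] at h0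
      subst h0
      congr 1
      funext n
      apply ih n
      funext p
      have := congrFun h (n :: p)
      simpa [Vtx.lab] using this

theorem mk_vtx_le : #(Vtx Z) ≤ (#Z + 1) ^ ℵ₀ := by
  have := Cardinal.mk_le_of_injective (lab_injective (Z := Z))
  simpa using this

theorem mk_types_le (s : Set (Vtx Z)) : #{x | ∃ nb, Vtx.node x nb ∈ s} ≤ #s := by
  classical
  have : ∀ x : {x | ∃ nb, Vtx.node x nb ∈ s}, ∃ nb, Vtx.node x.1 nb ∈ s := fun x => x.2
  choose nb hnb using this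
  refine Cardinal.mk_le_of_injective (f := fun x => (⟨Vtx.node x.1 (nb x), hnb x⟩ : s)) ?_
  intro x y h
  simp only [Subtype.mk.injEq, Vtx.node.injEq] at h
  exact Subtype.ext h.1

end Pool.Agent.Lib.MP_3beb55_lc
end

-- part Pool.Agent.Lib.MP_3beb55_lc.Shift
section

/-! Iterated shift digraphs. -/

namespace Pool.Agent.Lib.MP_3beb55_lc
open Cardinal

variable {A : Type}

/-- The arc relation of the `d`-th iterated line digraph of the complete digraph on `A`. -/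
def Sh (d : ℕ) (x y : ℕ → A) : Prop := (∀ j ≤ d, x j ≠ y j) ∧ ∀ j < d, y j = x (j + 1)

/-- finite beth iteration -/
noncomputable def bt (m : ℕ) (c : Cardinal.{0}) : Cardinal.{0} := (fun c => 2 ^ c)^[m] c

theorem bt_zero (c : Cardinal.{0}) : bt 0 c = c := rfl
theorem bt_succ (m : ℕ) (c : Cardinal.{0}) : bt (m + 1) c = bt m (2 ^ c) := rfl
theorem bt_succ' (m : ℕ) (c : Cardinal.{0}) : bt (m + 1) c = 2 ^ bt m c :=
  Function.iterate_succ_apply' _ _ _

theorem aleph0_le_bt (m : ℕ) : ℵ₀ ≤ bt m ℵ₀ := by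
  induction m with
  | zero => exact le_rfl
  | succ m ih => rw [bt_succ']; exact ih.trans (Cardinal.cantor _).le

theorem shift_small (d : ℕ) : ∀ (C : Type) [Infinite C] (A' : Set A), #A' ≤ bt d #C →
    ∃ φ : (ℕ → A) → C, (∀ x y, (∀ j ≤ d, x j = y j) → φ x = φ y) ∧
      ∀ x y, (∀ j ≤ d, x j ∈ A') → (∀ j ≤ d, y j ∈ A') → Sh d x y → φ x ≠ φ y := by
  classical
  induction d with
  | zero =>
    intro C _ A' h
    obtain ⟨ι⟩ := Cardinal.le_def _ _ |>.1 h
    refine ⟨fun x => if h : x 0 ∈ A' then ι ⟨x 0, h⟩ else Classical.arbitrary C, ?_, ?_⟩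
    · intro x y hxy
      simp only [hxy 0 le_rfl]
    · intro x y hx hy hS e
      simp only [dif_pos (hx 0 le_rfl), dif_pos (hy 0 le_rfl)] at e
      exact hS.1 0 le_rfl (congrArg Subtype.val (ι.injective e))
  | succ d ih =>
    intro C _ A' h
    rw [bt_succ, ← Cardinal.mk_set] at h
    obtain ⟨ψ, hψ1, hψ2⟩ := ih (Set C) A' h
    have hch : ∀ s t : Set C, ∃ b : C, s ≠ t → ¬ (b ∈ s ↔ b ∈ t) := by
      intro s t
      by_cases hst : s = t
      · exact ⟨Classical.arbitrary C, fun h => absurd hst h⟩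
      · by_contra hc
        push Not at hc
        exact hst (Set.ext fun b => (hc b).2)
    choose δ hδ using hch
    have hC : #(C × Prop) ≤ #C := by
      simp only [Cardinal.mk_prod, Cardinal.lift_id, Cardinal.mk_Prop]
      exact (Cardinal.mul_eq_left (Cardinal.aleph0_le_mk C)
        ((Cardinal.natCast_lt_aleph0 (n := 2)).le.trans (Cardinal.aleph0_le_mk C))
        two_ne_zero).le
    obtain ⟨ι⟩ := Cardinal.le_def _ _ |>.1 hC
    let tl : (ℕ → A) → (ℕ → A) := fun x j => x (j + 1)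
    refine ⟨fun x => ι (δ (ψ x) (ψ (tl x)), δ (ψ x) (ψ (tl x)) ∈ ψ x), ?_, ?_⟩
    · intro x y hxy
      have h1 : ψ x = ψ y := hψ1 x y fun j hj => hxy j (by omega)
      have h2 : ψ (tl x) = ψ (tl y) := hψ1 _ _ fun j hj => hxy (j + 1) (by omega)
      simp only [h1, h2]
    · intro x y hx hy hS e
      have e' := ι.injective e
      simp only [Prod.mk.injEq, eq_iff_iff] at e'
      have h1 : ψ x ≠ ψ (tl x) := by
        refine hψ2 _ _ (fun j hj => hx j (by omega)) (fun j hj => hx (j + 1) (by omega)) ⟨?_, ?_⟩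
        · intro j hj
          have := hS.1 j (by omega)
          rwa [hS.2 j (by omega)] at this
        · intro j _
          rfl
      have h2 : ψ (tl x) = ψ y := hψ1 _ _ fun j hj => (hS.2 j (by omega)).symm
      have h3 := hδ _ _ h1
      apply h3
      rw [e'.2, ← e'.1, h2]

theorem shift_large [Zero A] (hA : ∀ m, bt m ℵ₀ < #A) (d : ℕ) :
    ∀ (m : ℕ) (C : Type), #C ≤ bt m ℵ₀ → ∀ τ : (ℕ →₀ A) → C,
      ∃ x y : ℕ →₀ A, Sh d x y ∧ τ x = τ y := by
  classical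
  induction d with
  | zero =>
    intro m C hC τ
    have : ¬ Function.Injective (fun a : A => τ (Finsupp.single 0 a)) := by
      intro hinj
      exact absurd ((Cardinal.mk_le_of_injective hinj).trans hC) (not_le.2 (hA m))
    simp only [Function.Injective, not_forall] at this
    obtain ⟨a, b, hab, hne⟩ := this
    refine ⟨_, _, ⟨?_, ?_⟩, hab⟩
    · intro j hj
      obtain rfl : j = 0 := by omega
      simpa using hne
    · intro j hj
      omega
  | succ d ih =>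
    intro m C hC τ
    have hC' : #(Set C) ≤ bt (m + 1) ℵ₀ := by
      rw [Cardinal.mk_set, bt_succ']
      exact Cardinal.power_le_power_left two_ne_zero hC
    obtain ⟨x, y, hS, hτ⟩ := ih (m + 1) (Set C) hC'
      (fun x => {c | ∃ z : ℕ →₀ A, (∀ j ≤ d, z j = x j) ∧ z (d + 1) ≠ x d ∧ τ z = c})
    have hz : τ (x.update (d + 1) (y d)) ∈
        {c | ∃ z : ℕ →₀ A, (∀ j ≤ d, z j = x j) ∧ z (d + 1) ≠ x d ∧ τ z = c} := by
      refine ⟨_, ?_, ?_, rfl⟩
      · intro j hj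
        simp [Function.update_of_ne (show j ≠ d + 1 by omega)]
      · simpa using (hS.1 d le_rfl).symm
    rw [show {c | ∃ z : ℕ →₀ A, (∀ j ≤ d, z j = x j) ∧ z (d + 1) ≠ x d ∧ τ z = c} =
      {c | ∃ z : ℕ →₀ A, (∀ j ≤ d, z j = y j) ∧ z (d + 1) ≠ y d ∧ τ z = c} from hτ] at hz
    obtain ⟨z, h1, h2, h3⟩ := hz
    refine ⟨_, z, ⟨?_, ?_⟩, h3.symm⟩
    · intro j hj
      rcases Nat.lt_or_ge j (d + 1) with h | h
      · simp only [Finsupp.coe_update, Function.update_of_ne (show j ≠ d + 1 by omega)]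
        rw [h1 j (by omega)]
        exact hS.1 j (by omega)
      · obtain rfl : j = d + 1 := by omega
        simpa using h2.symm
    · intro j hj
      rw [h1 j (by omega)]
      rcases Nat.lt_or_ge j d with h | h
      · simp only [Finsupp.coe_update, Function.update_of_ne (show j + 1 ≠ d + 1 by omega)]
        exact hS.2 j h
      · obtain rfl : j = d := by omega
        simp

/-- small sets of vertices of the `m`-th shift digraph are countably chromatic -/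
theorem shift_small' [Zero A] (m : ℕ) (W' : Set (ℕ →₀ A)) (h : #W' ≤ bt m ℵ₀) :
    ∃ φ : (ℕ →₀ A) → ℕ, ∀ x ∈ W', ∀ y ∈ W', Sh m x y → φ x ≠ φ y := by
  have hA' : #(Set.range (fun p : W' × ℕ => p.1.1 p.2)) ≤ bt m #ℕ := by
    refine Cardinal.mk_range_le.trans ?_
    simp only [Cardinal.mk_prod, Cardinal.lift_id, Cardinal.mk_nat]
    calc #W' * ℵ₀ ≤ bt m ℵ₀ * bt m ℵ₀ := mul_le_mul' h (aleph0_le_bt m)
      _ = bt m ℵ₀ := Cardinal.mul_eq_self (aleph0_le_bt m)
  obtain ⟨φ, -, hφ⟩ := shift_small m ℕ _ hA'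
  exact ⟨fun x => φ x, fun x hx y hy hS =>
    hφ _ _ (fun j _ => ⟨(⟨x, hx⟩, j), rfl⟩) (fun j _ => ⟨(⟨y, hy⟩, j), rfl⟩) hS⟩

end Pool.Agent.Lib.MP_3beb55_lc
end

-- part Pool.Agent.Lib.MP_3beb55_lc.Tower
section

/-! The tower system: locally but not globally sigma-independent. -/

namespace Pool.Agent.Lib.MP_3beb55_lc
open Cardinal

variable {W : Type} [Zero W] (S : ℕ → W → W → Prop)

def RN (d : ℕ) (γ γ' : ℕ →₀ W) : Prop := ∀ i < d, S i (γ i) (γ' i)

def Ind (d : ℕ) (Y : Set (ℕ →₀ W)) : Prop := ∀ γ ∈ Y, ∀ γ' ∈ Y, ¬ RN S d γ γ'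

def Gen (u : ℕ → Set (ℕ →₀ W)) (d : ℕ) (γ : ℕ →₀ W) : Prop := ∀ k, Ind S d (u k) → γ ∉ u k

def Bad (u : ℕ → Set (ℕ →₀ W)) (d : ℕ) (γ : ℕ →₀ W) : Prop :=
  Gen S u d γ ∧ ∀ c : W, ∃ k, Ind S (d + 1) (u k) ∧ γ.update d c ∈ u k

abbrev ZT (W : Type) [Zero W] : Type := (ℕ → W) ⊕ (ℕ × (ℕ → Set (ℕ →₀ W)) × (ℕ →₀ W))

def RT (k : ℕ) : ZT W → ZT W → Prop
  | .inl x, .inl y => ∀ i < k, S i (x i) (y i)
  | .inr p, .inr q => p.1 = q.1 ∧ Bad S p.2.1 p.1 p.2.2 ∧ Bad S q.2.1 q.1 q.2.2 ∧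
      (∀ i < k, p.2.1 i = q.2.1 i) ∧ RN S p.1 p.2.2 q.2.2
  | _, _ => False

theorem RT_anti (k l : ℕ) (hkl : k ≤ l) (x y : ZT W) (h : RT S l x y) : RT S k x y := by
  rcases x with x | p <;> rcases y with y | q
  · exact fun i hi => h i (by omega)
  · exact h
  · exact h
  · exact ⟨h.1, h.2.1, h.2.2.1, fun i hi => h.2.2.2.1 i (by omega), h.2.2.2.2⟩

theorem RT_local
    (H1 : ∀ (m : ℕ) (W' : Set W), #W' ≤ bt m ℵ₀ →
      ∃ φ : W → ℕ, ∀ x ∈ W', ∀ y ∈ W', S m x y → φ x ≠ φ y)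
    (H2 : ∀ (d m : ℕ) (C : Type), #C ≤ bt m ℵ₀ → ∀ τ : W → C, ∃ x y, S d x y ∧ τ x = τ y)
    (m : ℕ) (s : Set (ZT W)) (hs : #s ≤ bt m ℵ₀) : SigmaInd (RT S) s := by
  classical
  refine SigmaInd.of_parts (fun z => Sum.elim (fun _ => 0) (fun _ => 1) z) ?_
  intro b
  by_cases hb : b = 0
  · -- branches
    subst hb
    have hW : #(Set.range (fun z : s => Sum.elim (fun x => x m) (fun _ => (0 : W)) z.1)) ≤
        bt m ℵ₀ := Cardinal.mk_range_le.trans hs
    obtain ⟨φ, hφ⟩ := H1 m _ hW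
    refine ⟨fun z => Sum.elim (fun x => φ (x m)) (fun _ => 0) z, fun _ => m + 1, ?_⟩
    rintro (x | p) ⟨hx, hx'⟩ (y | q) ⟨hy, hy'⟩ e hR
    · exact hφ _ ⟨⟨_, hx⟩, rfl⟩ _ ⟨⟨_, hy⟩, rfl⟩ (hR m (Nat.lt_succ_self m)) e
    · exact hR
    · exact hR
    · simp at hx'
  · let uu : ZT W → ℕ → Set (ℕ →₀ W) := fun z => Sum.elim (fun _ _ => ∅) (fun p => p.2.1) z
    let gg : ZT W → (ℕ →₀ W) := fun z => Sum.elim (fun _ => 0) (fun p => p.2.2) z
    have hC : #(Set ((s × ℕ) × s)) ≤ bt (m + 1) ℵ₀ := by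
      rw [Cardinal.mk_set, bt_succ']
      apply Cardinal.power_le_power_left two_ne_zero
      simp only [Cardinal.mk_prod, Cardinal.lift_id, Cardinal.mk_nat]
      calc #s * ℵ₀ * #s ≤ bt m ℵ₀ * bt m ℵ₀ * bt m ℵ₀ :=
            mul_le_mul' (mul_le_mul' hs (aleph0_le_bt m)) hs
        _ = bt m ℵ₀ := by
            rw [Cardinal.mul_eq_self (aleph0_le_bt m), Cardinal.mul_eq_self (aleph0_le_bt m)]
    have hc : ∀ d : ℕ, ∃ c c' : W, S d c c' ∧ ∀ z ∈ s, ∀ k, ∀ z' ∈ s,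
        ((gg z').update d c ∈ uu z k ↔ (gg z').update d c' ∈ uu z k) := by
      intro d
      obtain ⟨c, c', h1, h2⟩ := H2 d (m + 1) _ hC
        (fun c => {t : (s × ℕ) × s | (gg t.2.1).update d c ∈ uu t.1.1.1 t.1.2})
      refine ⟨c, c', h1, fun z hz k z' hz' => ?_⟩
      exact Set.ext_iff.1 h2 ((⟨z, hz⟩, k), ⟨z', hz'⟩)
    choose c c' hcc hτ using hc
    have hk : ∀ p : ℕ × (ℕ → Set (ℕ →₀ W)) × (ℕ →₀ W), ∃ k, Bad S p.2.1 p.1 p.2.2 →
        Ind S (p.1 + 1) (p.2.1 k) ∧ p.2.2.update p.1 (c p.1) ∈ p.2.1 k := by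
      intro p
      by_cases h : Bad S p.2.1 p.1 p.2.2
      · obtain ⟨k, hk⟩ := h.2 (c p.1)
        exact ⟨k, fun _ => hk⟩
      · exact ⟨0, fun h' => absurd h' h⟩
    choose κ hκ using hk
    refine ⟨fun z => Sum.elim (fun _ => 0) κ z, fun k => k + 1, ?_⟩
    rintro (x | p) ⟨hx, hx'⟩ (y | q) ⟨hy, hy'⟩ e hR
    · exact hb (by simpa using hx'.symm)
    · exact hR
    · exact hR
    · obtain ⟨d, u, γ⟩ := p
      obtain ⟨d', u', γ'⟩ := q
      obtain ⟨hd, hB, hB', hu, hRN⟩ := hR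
      simp only at hd hB hB' hu hRN e
      subst hd
      simp only [Sum.elim_inr] at e hu
      have h1 := hκ (d, u, γ) hB
      have h2 := hκ (d, u', γ') hB'
      simp only at h1 h2
      rw [← e, ← hu _ (Nat.lt_succ_self _)] at h2
      have h3 : γ'.update d (c' d) ∈ u (κ (d, u, γ)) :=
        (hτ d _ hx (κ (d, u, γ)) _ hy).1 h2.2
      refine h1.1 _ h1.2 _ h3 ?_
      intro i hi
      rcases Nat.lt_or_ge i d with h | h
      · simp only [Finsupp.coe_update, Function.update_of_ne h.ne]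
        exact hRN i h
      · obtain rfl : i = d := by omega
        simpa using hcc i

noncomputable def nodeOf (x : ℕ → W) : ℕ → (ℕ →₀ W)
  | 0 => 0
  | d + 1 => (nodeOf x d).update d (x d)

theorem nodeOf_apply (x : ℕ → W) (d i : ℕ) (h : i < d) : nodeOf x d i = x i := by
  classical
  induction d with
  | zero => omega
  | succ d ih =>
    rcases Nat.lt_or_ge i d with h' | h'
    · simp only [nodeOf, Finsupp.coe_update, Function.update_of_ne h'.ne]
      exact ih h'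
    · obtain rfl : i = d := by omega
      simp [nodeOf]

/-- a countable family closed under countably many finitary operations -/
theorem exists_closed {α : Type} (a : α) (ar : ℕ → ℕ) (F : ℕ → (ℕ → α) → α)
    (hF : ∀ n u u', (∀ i < ar n, u i = u' i) → F n u = F n u') :
    ∃ u : ℕ → α, ∀ n, ∃ k, u k = F n u := by
  classical
  let β : Option ℕ → Type := fun t => Fin (t.elim 0 ar)
  have : Nonempty (WType β) := ⟨WType.mk none (fun i => Fin.elim0 i)⟩
  obtain ⟨e, he⟩ := exists_surjective_nat (WType β)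
  let step : (Σ t : Option ℕ, β t → α) → α := fun p =>
    match p with
    | ⟨some n, f⟩ => F n (fun i => if h : i < ar n then f ⟨i, h⟩ else a)
    | ⟨none, _⟩ => a
  let ev : WType β → α := WType.elim α step
  refine ⟨fun k => ev (e k), fun n => ?_⟩
  obtain ⟨k, hk⟩ := he (WType.mk (some n) (fun i : Fin (ar n) => e i.1))
  refine ⟨k, ?_⟩
  simp only [hk, ev, WType.elim, step]
  apply hF
  intro i hi
  simp [hi]

theorem RT_global : ¬ SigmaInd (RT S) Set.univ := by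
  classical
  rintro ⟨dd, kk, h⟩
  let Y : ℕ → Set (ℕ →₀ W) := fun j => {γ | ∃ x, dd (Sum.inl x) = j ∧ γ = nodeOf x (kk j)}
  let I : ℕ → ℕ → (ℕ → Set (ℕ →₀ W)) → Set (ℕ →₀ W) := fun d j u =>
    {γ | ∃ u', (∀ i < kk j, u' i = u i) ∧ Bad S u' d γ ∧ dd (Sum.inr (d, u', γ)) = j}
  have hY : ∀ j, Ind S (kk j) (Y j) := by
    rintro j _ ⟨x, hx, rfl⟩ _ ⟨y, hy, rfl⟩ hR
    refine h (Sum.inl x) trivial (Sum.inl y) trivial (hx.trans hy.symm) ?_
    rw [hx]
    intro i hi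
    have := hR i hi
    rwa [nodeOf_apply _ _ _ hi, nodeOf_apply _ _ _ hi] at this
  have hI : ∀ d j u, Ind S d (I d j u) := by
    rintro d j u γ ⟨u1, h1, hB1, hd1⟩ γ' ⟨u2, h2, hB2, hd2⟩ hR
    refine h (Sum.inr (d, u1, γ)) trivial (Sum.inr (d, u2, γ')) trivial (hd1.trans hd2.symm) ?_
    rw [hd1]
    exact ⟨rfl, hB1, hB2, fun i hi => (h1 i hi).trans (h2 i hi).symm, hR⟩
  obtain ⟨u, hu⟩ := exists_closed (∅ : Set (ℕ →₀ W)) (fun n => kk n.unpair.2)
    (fun n u => match n.unpair.1 with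
      | 0 => Y n.unpair.2
      | d + 1 => I d n.unpair.2 u) (by
      intro n u u' huu
      rcases n.unpair.1 with _ | d
      · rfl
      · ext γ
        constructor
        · rintro ⟨u1, h1, h2⟩
          exact ⟨u1, fun i hi => (h1 i hi).trans (huu i hi), h2⟩
        · rintro ⟨u1, h1, h2⟩
          exact ⟨u1, fun i hi => (h1 i hi).trans (huu i hi).symm, h2⟩)
  have huY : ∀ j, ∃ k, u k = Y j := fun j => by simpa using hu (Nat.pair 0 j)
  have huI : ∀ d j, ∃ k, u k = I d j u := fun d j => by simpa using hu (Nat.pair (d + 1) j)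
  have hstep : ∀ d γ, ∃ c : W, Gen S u d γ → Gen S u (d + 1) (γ.update d c) := by
    intro d γ
    by_cases hG : Gen S u d γ
    · by_contra hc
      push Not at hc
      have hB : Bad S u d γ := by
        refine ⟨hG, fun c => ?_⟩
        have := (hc c).2
        simp only [Gen, not_forall, not_not] at this
        obtain ⟨k, h1, h2⟩ := this
        exact ⟨k, h1, h2⟩
      obtain ⟨k, hk⟩ := huI d (dd (Sum.inr (d, u, γ)))
      refine hG k (hk ▸ hI _ _ _) ?_
      rw [hk]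
      exact ⟨u, fun _ _ => rfl, hB, rfl⟩
    · exact ⟨0, fun h' => absurd h' hG⟩
  choose nxt hnxt using hstep
  let nd : ℕ → (ℕ →₀ W) := fun d => Nat.rec 0 (fun d γ => γ.update d (nxt d γ)) d
  let x : ℕ → W := fun d => nxt d (nd d)
  have hnd : ∀ d, nodeOf x d = nd d := by
    intro d
    induction d with
    | zero => rfl
    | succ d ih => rw [nodeOf, ih]
  have hgen : ∀ d, Gen S u d (nd d) := by
    intro d
    induction d with
    | zero =>
      intro k hk hm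
      exact hk _ hm _ hm (fun i hi => absurd hi (Nat.not_lt_zero i))
    | succ d ih => exact hnxt d _ ih
  obtain ⟨k, hk⟩ := huY (dd (Sum.inl x))
  refine hgen (kk (dd (Sum.inl x))) k (hk ▸ hY _) ?_
  rw [hk]
  exact ⟨x, rfl, (hnd _).symm⟩

theorem mk_ZT_le (hW : ℵ₀ ≤ #W) : #(ZT W) ≤ 2 ^ #W := by
  have : Infinite W := Cardinal.aleph0_le_mk_iff.1 hW
  have hN : #(ℕ →₀ W) = #W := by
    rw [Cardinal.mk_finsupp_of_infinite', Cardinal.mk_nat, max_eq_right hW]
  have h2 : ℵ₀ ≤ 2 ^ #W := hW.trans (Cardinal.cantor _).le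
  have h3 : ((2 : Cardinal) ^ #W) ^ ℵ₀ = 2 ^ #W := by
    rw [← Cardinal.power_mul, Cardinal.mul_eq_left hW hW Cardinal.aleph0_ne_zero]
  have h4 : #W ^ ℵ₀ ≤ 2 ^ #W :=
    (Cardinal.power_le_power_right (Cardinal.cantor _).le).trans h3.le
  simp only [Cardinal.mk_sum, Cardinal.lift_id, Cardinal.mk_prod, Cardinal.mk_nat,
    Cardinal.mk_pi, Cardinal.prod_const, Cardinal.mk_set, hN, h3]
  refine Cardinal.add_le_of_le h2 h4 ?_
  refine Cardinal.mul_le_of_le h2 h2 ?_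
  exact Cardinal.mul_le_of_le h2 le_rfl (Cardinal.cantor _).le

end Pool.Agent.Lib.MP_3beb55_lc
end

-- part Pool.Agent.Lib.MP_3beb55_lc.Main
section

namespace Pool.Agent.Lib.MP_3beb55_lc
open Cardinal Ordinal

theorem bt_eq (m : ℕ) : bt m ℵ₀ = ℶ_ (m : Ordinal.{0}) := by
  induction m with
  | zero => simp [bt_zero]
  | succ m ih => rw [bt_succ', ih, Nat.cast_succ, Cardinal.beth_add_one]

theorem beth_omega_le_sum : ℶ_ (ω : Ordinal.{0}) ≤ #(Σ m : ℕ, (bt m ℵ₀).out) := by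
  rw [Cardinal.beth_limit Ordinal.isSuccLimit_omega0]
  apply ciSup_le'
  rintro ⟨a, ha⟩
  obtain ⟨n, rfl⟩ := Ordinal.lt_omega0.1 ha
  have : #((bt n ℵ₀).out) ≤ #(Σ m : ℕ, (bt m ℵ₀).out) :=
    Cardinal.mk_le_of_injective (sigma_mk_injective (β := fun m : ℕ => (bt m ℵ₀).out) (i := n))
  rwa [Cardinal.mk_out, bt_eq] at this

theorem sigmaInd_of_le {Z : Type} (R : ℕ → Z → Z → Prop)
    (h : ∀ (m : ℕ) (s : Set Z), #s ≤ bt m ℵ₀ → SigmaInd R s) (s : Set Z)
    (hs : #s ≤ ℶ_ (ω : Ordinal.{0})) : SigmaInd R s := by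
  classical
  obtain ⟨ι⟩ := Cardinal.le_def _ _ |>.1 (hs.trans beth_omega_le_sum)
  refine SigmaInd.of_parts (fun z => if hz : z ∈ s then (ι ⟨z, hz⟩).1 else 0) fun m => ?_
  apply h m
  have key : ∀ z : {x | x ∈ s ∧ (if hz : x ∈ s then (ι ⟨x, hz⟩).1 else 0) = m},
      ∃ t : (bt m ℵ₀).out, ι ⟨z.1, z.2.1⟩ = ⟨m, t⟩ := by
    rintro ⟨z, hz, hm⟩
    rw [dif_pos hz] at hm
    subst hm
    exact ⟨(ι ⟨z, hz⟩).2, rfl⟩
  choose t ht using key
  have := Cardinal.mk_le_of_injective (f := t) (by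
    intro x y hxy
    have : ι ⟨x.1, x.2.1⟩ = ι ⟨y.1, y.2.1⟩ := by rw [ht x, ht y, hxy]
    have h2 := congrArg Subtype.val (ι.injective this)
    exact Subtype.ext h2)
  rwa [Cardinal.mk_out] at this

theorem main_zfc : ∃ (V : Type) (G : SimpleGraph V),
    ℶ_ ω < #V ∧ #V ≤ ℶ_ (ω + 1) ∧ IsEmpty (G.Coloring ℕ) ∧
    Nonempty (G.Coloring (Set.Iio (Ordinal.omega.{0} 1))) ∧
    ∀ s : Set V, #s ≤ ℶ_ ω → Nonempty ((G.induce s).Coloring ℕ) := by
  classical
  let A : Type := (ℶ_ (ω : Ordinal.{0})).out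
  have hA : #A = ℶ_ ω := Cardinal.mk_out _
  have hAinf : Infinite A := Cardinal.aleph0_le_mk_iff.1 (hA ▸ Cardinal.aleph0_le_beth _)
  let _ : Zero A := ⟨Classical.arbitrary A⟩
  have hlt : ∀ m, bt m ℵ₀ < #A := fun m => by
    rw [bt_eq, hA]
    exact Cardinal.beth_lt_beth.2 (Ordinal.natCast_lt_omega0 m)
  have hW : #(ℕ →₀ A) = ℶ_ ω := by
    rw [Cardinal.mk_finsupp_of_infinite', Cardinal.mk_nat, hA,
      max_eq_right (Cardinal.aleph0_le_beth _)]
  let S : ℕ → (ℕ →₀ A) → (ℕ →₀ A) → Prop := fun d x y => Sh d x y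
  have hloc : ∀ s : Set (Vtx (ZT (ℕ →₀ A))), #s ≤ ℶ_ ω →
      Nonempty (((graph (RT S)).induce s).Coloring ℕ) := by
    intro s hs
    refine coloring_of_sigmaInd _ (RT_anti S) s ?_
    refine sigmaInd_of_le _ (RT_local S (fun m W' h => shift_small' m W' h)
      (fun d m C hC τ => shift_large hlt d m C hC τ)) _ ((mk_types_le s).trans hs)
  have hglob : IsEmpty ((graph (RT S)).Coloring ℕ) :=
    ⟨fun c => RT_global S (sigmaInd_of_coloring _ c)⟩
  refine ⟨Vtx (ZT (ℕ →₀ A)), graph (RT S), ?_, ?_, hglob, colorable_omega1 _, hloc⟩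
  · by_contra hc
    push Not at hc
    obtain ⟨c⟩ := hloc Set.univ (by simpa using hc)
    refine hglob.false (SimpleGraph.Coloring.mk (fun v => c ⟨v, trivial⟩) ?_)
    intro v w hvw
    exact c.valid (by exact hvw)
  · have hZ := mk_ZT_le (W := ℕ →₀ A) (hW ▸ Cardinal.aleph0_le_beth _)
    rw [hW] at hZ
    have h0 : ℵ₀ ≤ ℶ_ (ω : Ordinal.{0}) := Cardinal.aleph0_le_beth _
    have h2 : ℵ₀ ≤ 2 ^ ℶ_ (ω : Ordinal.{0}) := h0.trans (Cardinal.cantor _).le
    rw [Cardinal.beth_add_one]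
    refine mk_vtx_le.trans ?_
    calc (#(ZT (ℕ →₀ A)) + 1) ^ ℵ₀ ≤ ((2 : Cardinal) ^ ℶ_ (ω : Ordinal.{0})) ^ ℵ₀ :=
          Cardinal.power_le_power_right
            (Cardinal.add_le_of_le h2 hZ (Cardinal.one_le_aleph0.trans h2))
      _ = 2 ^ ℶ_ (ω : Ordinal.{0}) := by
          rw [← Cardinal.power_mul, Cardinal.mul_eq_left h0 h0 Cardinal.aleph0_ne_zero]

theorem beth_eq_aleph (h : ∀ κ : Cardinal.{0}, ℵ₀ ≤ κ → 2 ^ κ = Order.succ κ)
    (o : Ordinal.{0}) : ℶ_ o = ℵ_ o := by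
  induction o using Ordinal.limitRecOn with
  | zero => simp
  | add_one o ih =>
    rw [Cardinal.beth_add_one, ← Cardinal.succ_aleph, ih, h _ (Cardinal.aleph0_le_aleph o)]
  | limit o ho ih =>
    rw [Cardinal.beth_limit ho, Cardinal.aleph_limit ho]
    congr 1
    funext a
    exact ih a.1 a.2

end Pool.Agent.Lib.MP_3beb55_lc
end
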